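import Pool.Agent.Mg.Fa1dcd4.G04b7df
import Pool.Agent.Mg.Fa1dcd4.Gc4ba1c
import Pool.Agent.Mg.Fa1dcd4.Gab73b3

set_option autoImplicit false

namespace Pool.Agent.Results.MP_a1dcd4_co.BoundedOrbits

open Pool.Agent.MP_a1dcd4_co.OR

/-- There is an absolute constant `c` such that every finite group `G` is isomorphic to the
automorphism group of a finite lattice `L` on which the automorphism group has at most `c`
orbits; this lattice has at most `c * |G|` elements. -/
theorem result :
    ∃ c : ℕ, ∀ (G : Type) [Group G] [Finite G],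
      ∃ (L : Type) (_ : Lattice L) (_ : Finite L), Nonempty ((L ≃o L) ≃* G) ∧
        (∃ R : Finset L, R.card ≤ c ∧ ∀ x : L, ∃ r ∈ R, ∃ α : L ≃o L, α r = x) ∧
        Nat.card L ≤ c * Nat.card G := by
  obtain ⟨n, hn⟩ := all (two net (twoGen qfex clif countA countB (add countC))) abl
    (star ext_sidon) typeA num
  obtain ⟨c, hc⟩ := geom n
  refine ⟨c, fun G _ _ => ?_⟩
  obtain ⟨L, i1, i2, h1, h2, h3⟩ := hc G (hn G)
  exact ⟨L, i1, i2, h1, h3, h2⟩

end Pool.Agent.Results.MP_a1dcd4_co.BoundedOrbits
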