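import Pool.Agent.MP_a1dcd4_co.MD.Conf2
import Pool.Agent.MP_a1dcd4_co.MD.Low
import Pool.Agent.MP_a1dcd4_co.MD.Dia

set_option autoImplicit false

namespace Pool.Agent.Results.MP_a1dcd4_co.ModularQuadratic

open Pool.Agent.MP_a1dcd4_co.MD

/-- For a prime `p` congruent to `2` modulo `3` and not congruent to `1` modulo `5`, the least
size `m` of a finite modular lattice with cyclic automorphism group of order `p` exists and lies
between `p ^ 2` and `p ^ 2 + 512 p`. -/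
theorem result (p : ℕ) (hp : p.Prime) (h3 : p % 3 = 2) (h5 : p % 5 ≠ 1) :
    ∃ m : ℕ, IsLeast {n : ℕ | ∃ (L : Type) (_ : Lattice L) (_ : IsModularLattice L)
        (_ : Finite L), Nonempty ((L ≃o L) ≃* Multiplicative (ZMod p)) ∧ Nat.card L = n} m ∧
      p ^ 2 ≤ m ∧ m ≤ p ^ 2 + 512 * p := by
  classical
  obtain ⟨L, i1, i2, i3, he, hL⟩ := exists_small p hp.two_le
  have hne : ({n : ℕ | ∃ (L : Type) (_ : Lattice L) (_ : IsModularLattice L)
      (_ : Finite L), Nonempty ((L ≃o L) ≃* Multiplicative (ZMod p)) ∧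
        Nat.card L = n} : Set ℕ).Nonempty := ⟨_, L, i1, i2, i3, he, rfl⟩
  have hm := Nat.sInf_mem hne
  refine ⟨_, ⟨hm, fun n hn => Nat.sInf_le hn⟩, ?_, ?_⟩
  · obtain ⟨M, j1, j2, j3, ⟨e⟩, hM⟩ := hm
    rw [← hM]
    exact lower sConf2 hp h3 h5 M e
  · exact le_trans (Nat.sInf_le ⟨L, i1, i2, i3, he, rfl⟩) hL

end Pool.Agent.Results.MP_a1dcd4_co.ModularQuadratic
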