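import Pool.Agent.Mg.Fa1dcd4a.Gbecc9b
import Pool.Agent.Mg.Fa1dcd4a.G60ef6f
import Pool.Agent.Mg.Fa1dcd4a.Ge55815
import Pool.Agent.Mg.Fa1dcd4a.Gb1f399

set_option autoImplicit false

namespace Pool.Agent.Results.MP_a1dcd4_co.SharpConstant

open Pool.Agent.MP_a1dcd4_co.SH

/-- For a real number `c`: all sufficiently large finite groups `G` are isomorphic to the
automorphism group of a finite lattice with at most `c * |G|` elements if and only if `2 < c`. -/
theorem result (c : ℝ) :
    (∃ n₀ : ℕ, ∀ (G : Type) [Group G] [Finite G], n₀ ≤ Nat.card G →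
      ∃ (L : Type) (_ : Lattice L) (_ : Finite L), Nonempty ((L ≃o L) ≃* G) ∧
        (Nat.card L : ℝ) ≤ c * Nat.card G) ↔ 2 < c := by
  have hU : S_UM := um Pool.Agent.MP_a1dcd4_co.SH.abs
  have hC : S_CH := ch hU
  have hS : S_Sel := sel seed (selC q34 cover prop)
  have h1 : S_E1 := e1 hU exB
  have h2 : S_E2 := e2 hU exB
  exact final (top (cheap hC (blkB (tie ti1)) num syl) big
    (br (brp hC hS (d2 hU sl) h1 h2 (cyc hU) (frob hU)) hS win (d1 hU sl) h1 h2)) low c

end Pool.Agent.Results.MP_a1dcd4_co.SharpConstant
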